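import Pool.Agent.AEC.StmtsB

open FirstOrder FirstOrder.Language Cardinal Set

universe u

namespace Pool.Agent.AEC.H88

open Pool.Agent.AEC

theorem spt : SptStmt.{u} := by
  intro L κ K E A I _ g
  have hsupp := fun x : A.α => E.supp I (g x)
  choose t y hy using hsupp
  let s : Set I := ⋃ x : A.α, ((t x : Finset I) : Set I)
  have hs : #s ≤ #A.α + ℵ₀ := by
    have h1 : #s ≤ #A.α * ⨆ x : A.α, #((t x : Finset I) : Set I) := Cardinal.mk_iUnion_le _
    have h2 : (⨆ x : A.α, #((t x : Finset I) : Set I)) ≤ ℵ₀ := by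
      refine ciSup_le' fun x => ?_
      exact ((Cardinal.lt_aleph0_iff_finite.2 (Finset.finite_toSet (t x))).le)
    refine h1.trans ((mul_le_mul_right h2 _).trans ?_)
    refine (Cardinal.mul_le_max_of_aleph0_le_right le_rfl).trans ?_
    exact max_le (self_le_add_right _ _) (self_le_add_left _ _)
  have hsub : ∀ x : A.α, ((t x : Finset I) : Set I) ⊆ s := fun x =>
    Set.subset_iUnion (fun x : A.α => ((t x : Finset I) : Set I)) x
  obtain ⟨h, hh⟩ := AEC.Hom.exists_factor g (E.map (OrderEmbedding.subtype fun i => i ∈ s)) (by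
    intro x
    let a : (((t x : Finset I) : Set I)) ↪o s :=
      { toFun := fun i => ⟨i.1, hsub x i.2⟩
        inj' := by
          intro i j hij
          exact Subtype.ext (congrArg (fun z : s => (z : I)) hij)
        map_rel_iff' := Iff.rfl }
    refine ⟨E.map a (y x), ?_⟩
    have := E.map_comp a (OrderEmbedding.subtype fun i => i ∈ s)
      (OrderEmbedding.subtype fun i => i ∈ ((t x : Finset I) : Set I)) (fun i => rfl) (y x)
    rw [← this]
    exact hy x)
  exact ⟨s, hs, h, hh⟩

end Pool.Agent.AEC.H88
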