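import Pool.Agent.AEC.StmtsB

open FirstOrder FirstOrder.Language Cardinal Set

universe u

namespace Pool.Agent.AEC.H88

open Pool.Agent.AEC

theorem w1a (stb : StbStmt.{u}) (dne : DneStmt.{u}) (dam : DamStmt.{u}) (emb : EmbStmt.{u}) :
    W1aStmt.{u} := by
  rintro L κ K ⟨E⟩ hK M
  by_cases hcase : ∃ (N : K.Mod) (_ : K.Hom M N), AEC.IsMax N
  · obtain ⟨N, e, hN⟩ := hcase
    refine ⟨N, e, fun ι B f => ?_⟩
    have hfac : ∀ i, ∃ w : K.Hom (B i) N, ∀ a, f i (w a) = AEC.Hom.id (B i) a := fun i =>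
      AEC.Hom.exists_factor (AEC.Hom.id (B i)) (f i) (fun a => hN (B i) (f i) a)
    choose w hw using hfac
    refine ⟨N, w, fun i j x => ?_⟩
    have key : ∀ i, w i (f i (e x)) = e x := by
      intro i
      apply (f i).injective
      exact hw i (f i (e x))
    rw [key i, key j]
  · have hmax : ∀ (N : K.Mod) (_ : K.Hom M N), ¬ AEC.IsMax N := fun N e h => hcase ⟨N, e, h⟩
    have hX : #((#M.α + κ).out) = #M.α + κ := Cardinal.mk_out _
    have hclosed : K.ChainClosed (fun _ => True)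
        (max #(E.Sg M ((#M.α + κ).out)) ℵ₀) := by
      intro J _ _ _ _ _ F m B s _ _ _
      trivial
    obtain ⟨N, e, -, hN⟩ := stb L κ K M (E.Sg M ((#M.α + κ).out))
      (fun B e => E.D ((#M.α + κ).out) e) (fun _ => True)
      (by
        rintro B C e f σ ⟨I, lo, v, g, hg⟩
        exact ⟨I, lo, v, g.comp f, fun x => hg x⟩)
      hclosed trivial
    refine ⟨N, e, fun ι B f => ?_⟩
    obtain ⟨l, hl, hcat⟩ := hK (#N.α + κ)
    obtain ⟨g⟩ := emb L κ K E N (fun P h => hmax P (h.comp e)) l hl hcat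
    obtain ⟨σ, hσ⟩ := dne L κ K E ((#M.α + κ).out) M N e
      (by rw [hX]; exact add_le_add le_rfl K.aleph0_le) l.ord.ToType g
    exact dam L κ K E ((#M.α + κ).out) M N e ι B f σ (fun i => by
      have := hN (B i) (f i) trivial
      rw [this]
      exact hσ)

end Pool.Agent.AEC.H88
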